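import Pool.Agent.Lib.MP_1d6fae_al.FIN

/-!
# MP_1d6fae_al: the countable groups which embed in the unitary group of the hyperfinite II_1 factor

`V` is the group of the finitely supported sequences in `(Z/2)^2`, `sg` a bicharacter of `V`. `UG` is the unitary group of the hyperfinite II_1
factor `R`: the surjective linear isometries of `l^2(V)` which commute with all right twisted translations (`R`, the commutant of these, is the
von Neumann algebra generated by the left twisted translations, the infinite tensor product of the algebras of 2x2 matrices with respect to the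
trace). `EmbG G`: there is an injective homomorphism `G → UG`. `ClosedG C`: for every `g ∉ C` there are a homomorphism `φ : G → UG` and `u ∈ UG`
commuting with `φ(C)` and not with `φ(g)`. `QG F G`: if `G` embeds in the metric ultrapower of `UG` with respect to `F`, then `EmbG G` (this is
Q1 for `G`).
-/

set_option autoImplicit false

open Pool.Agent.Lib.MP_1d6fae_al

namespace Pool.Agent.Results.MP_1d6fae_al.EmbeddableClass

theorem result :
    -- (1) residual characterisation; finitely presented groups and algebraic ultrapowers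
    (∀ (G : Type) [Group G] [Countable G], EmbG G ↔ SepG G) ∧
    (∀ (G : Type) [Group G], Group.IsFinitelyPresented G → ∀ (I : Type) (F : Ultrafilter I),
      (EmbG G ↔ ∃ φ : G →* (F : Filter I).Germ UG, Function.Injective φ)) ∧
    -- (2) `<G, t | [t, C] = 1>` and the double of `G` along `C`
    (∀ (G : Type) [Group G] [Countable G] (C : Subgroup G), (EmbG (Ext C) ↔ EmbG G ∧ ClosedG C) ∧ (EmbG (Dbl C) ↔ EmbG G ∧ ClosedG C)) ∧
    -- (3) closed subgroups
    (∀ (G : Type) [Group G], EmbG G → ClosedG (⊥ : Subgroup G) ∧ ∀ S : Set G, ClosedG (Subgroup.centralizer S)) ∧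
    (∀ (G : Type) [Group G] (N : Subgroup G), N.FiniteIndex → ClosedG N) ∧
    (∀ (G : Type) [Group G] (ι : Type) (C : ι → Subgroup G), (∀ i, ClosedG (C i)) → ClosedG (⨅ i, C i)) ∧
    -- (4) free products, amalgamated products, subgroups of finite index
    (∀ (ι : Type) [Countable ι] (G : ι → Type) [∀ i, Group (G i)] [∀ i, Countable (G i)],
      EmbG (Monoid.CoprodI G) ↔ ∀ i, EmbG (G i)) ∧
    (∀ (ι : Type) [Countable ι] [Nonempty ι] (G : ι → Type) [∀ i, Group (G i)] [∀ i, Countable (G i)] (H : Type) [Group H]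
      (φ : ∀ i, H →* G i), (∀ i, Function.Injective (φ i)) →
      (∀ r : ∀ i, G i →* H, (∀ i h, r i (φ i h) = h) → (EmbG (Monoid.PushoutI φ) ↔ ∀ i, EmbG (G i))) ∧
      (CritG φ → EmbG (Monoid.PushoutI φ))) ∧
    (∀ (G : Type) [Group G] [Countable G] (N : Subgroup G), N.FiniteIndex → (EmbG G ↔ EmbG N)) ∧
    -- (5) Q1 passes to these groups
    ∀ F : Ultrafilter ℕ,
      (∀ (G : Type) [Group G] [Countable G] (C : Subgroup G), ClosedG C → QG F G → QG F (Ext C) ∧ QG F (Dbl C)) ∧
      (∀ (ι : Type) [Countable ι] (G : ι → Type) [∀ i, Group (G i)] [∀ i, Countable (G i)], (∀ i, QG F (G i)) → QG F (Monoid.CoprodI G)) ∧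
      (∀ (ι : Type) [Countable ι] [Nonempty ι] (G : ι → Type) [∀ i, Group (G i)] [∀ i, Countable (G i)] (H : Type) [Group H]
        (φ : ∀ i, H →* G i) (r : ∀ i, G i →* H), (∀ i h, r i (φ i h) = h) → (∀ i, QG F (G i)) → QG F (Monoid.PushoutI φ)) ∧
      ∀ (G : Type) [Group G] [Countable G] (N : Subgroup G), N.FiniteIndex → QG F N → QG F G :=
  ⟨fun G => g_sep G, fun G _ h I F => g_fp G h I F, fun G _ _ C => ⟨g_ext G C, g_dbl G C⟩, fun G _ h => ⟨g_bot G h, g_centralizer G h⟩, fun G _ N _ => g_closed_index G N,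
    fun G _ ι C h => g_closed_inf G ι C h, fun ι _ G => g_free ι G,
    fun ι _ _ G _ _ H _ φ hφ => ⟨fun r hr => g_retract ι G H φ r hr, g_amalgam ι G H φ hφ⟩,
    fun G _ _ N _ => g_index G N, fun F => ⟨fun G _ _ C hC h => ⟨q_ext F G C hC h, q_dbl F G C hC h⟩,
      fun ι _ G _ _ h => q_free F ι G h, fun ι _ _ G _ _ H _ φ r hr h => q_retract F ι G H φ r hr h, fun G _ _ N _ h => q_index F G N h⟩⟩

end Pool.Agent.Results.MP_1d6fae_al.EmbeddableClass
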